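import Pool.Agent.H110R3.UF.Stmts

open CategoryTheory MonoidalCategory CategoryTheory.Limits
open scoped Matrix

universe v u

namespace Pool.Agent.H499R3.UF

open Pool.Agent.H110R3.UF

section
variable {C : Type u} [Category.{v} C] [Preadditive C] [Linear ℂ C] [MonoidalCategory C]

theorem coef_ne (K : Ctx C) {a b : Fin K.n} (h : a ≠ b) (g : K.S a ⟶ K.S b) :
    K.coef a b g = 0 := by
  rw [K.eq_coef a b g, map_smul, K.coef_dl, if_neg h, smul_zero]

theorem mat_rea {K : Ctx C} (X Y : Pre K) (m : Matrix X.I Y.I ℂ) (i : X.I) (j : Y.I)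
    (hX : X.Good) (hY : Y.Good) :
    mat X Y (rea X Y m) i j = if X.s i = Y.s j then m i j else 0 := by
  have h1 : X.inc i ≫ rea X Y m ≫ Y.prj j = m i j • K.dl (X.s i) (Y.s j) := by
    unfold rea
    rw [Preadditive.sum_comp, Preadditive.comp_sum, Finset.sum_eq_single i]
    · rw [Preadditive.sum_comp, Preadditive.comp_sum, Finset.sum_eq_single j]
      · rw [Linear.smul_comp, Linear.comp_smul, Category.assoc, Category.assoc, hY.ortho,
          if_pos rfl, K.dl_self, Category.comp_id, ← Category.assoc, hX.ortho, if_pos rfl,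
          K.dl_self, Category.id_comp]
      · intro j' _ hj'
        rw [Linear.smul_comp, Linear.comp_smul, Category.assoc, Category.assoc, hY.ortho,
          if_neg hj', comp_zero, comp_zero, comp_zero, smul_zero]
      · intro h; exact absurd (Finset.mem_univ _) h
    · intro i' _ hi'
      rw [Preadditive.sum_comp, Preadditive.comp_sum]
      refine Finset.sum_eq_zero fun j' _ => ?_
      rw [Linear.smul_comp, Linear.comp_smul, Category.assoc, ← Category.assoc (X.inc i),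
        hX.ortho, if_neg (Ne.symm hi'), zero_comp, smul_zero]
    · intro h; exact absurd (Finset.mem_univ _) h
  unfold mat
  rw [h1, map_smul, K.coef_dl]
  split_ifs <;> simp

theorem mat_dagm {K : Ctx C} (X Y : Pre K) (f : X.X ⟶ Y.X) (hX : X.Good) (hY : Y.Good) :
    mat Y X (dagm X Y f) = (mat X Y f)ᴴ := by
  ext i j
  unfold dagm
  rw [mat_rea Y X _ i j hY hX]
  split_ifs with h
  · rfl
  · rw [Matrix.conjTranspose_apply]
    have : mat X Y f j i = 0 := coef_ne K (Ne.symm h) _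
    rw [this, star_zero]

variable [MonoidalPreadditive C] [MonoidalLinear ℂ C]

/-- the numerical factor -/
noncomputable def EE (K : Ctx C) (a b c : Fin K.n) (k : Fin (K.N a b c)) (a' b' c' : Fin K.n)
    (k' : Fin (K.N a' b' c')) : ℂ :=
  K.coef c c' (K.G a b c k ≫ (K.dl a a' ⊗ₘ K.dl b b') ≫ K.G' a' b' c' k')

omit [MonoidalLinear ℂ C] in
theorem EE_star (K : Ctx C) (a b c : Fin K.n) (k : Fin (K.N a b c)) (a' b' c' : Fin K.n)
    (k' : Fin (K.N a' b' c')) : EE K a b c k a' b' c' k' = star (EE K a' b' c' k' a b c k) := by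
  by_cases ha : a = a'
  · by_cases hb : b = b'
    · subst ha
      subst hb
      unfold EE
      rw [K.dl_self, K.dl_self, MonoidalCategory.id_tensorHom_id, Category.id_comp,
        Category.id_comp, K.ortho, K.ortho]
      by_cases h : (⟨c, k⟩ : Σ c, Fin (K.N a b c)) = ⟨c', k'⟩
      · have hc : c = c' := congrArg Sigma.fst h
        rw [if_pos h, if_pos h.symm, K.coef_dl, K.coef_dl, if_pos hc, if_pos hc.symm, star_one]
      · rw [if_neg h, if_neg (fun h' => h h'.symm), map_zero, map_zero, star_zero]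
    · unfold EE
      rw [K.dl_ne b b' hb, K.dl_ne b' b (Ne.symm hb)]
      simp
  · unfold EE
    rw [K.dl_ne a a' ha, K.dl_ne a' a (Ne.symm ha)]
    simp

theorem core (K : Ctx C) {A B A' B' : C} (a b c a' b' c' : Fin K.n) (k : Fin (K.N a b c))
    (k' : Fin (K.N a' b' c')) (ia : K.S a ⟶ A) (ib : K.S b ⟶ B) (pa : A' ⟶ K.S a')
    (pb : B' ⟶ K.S b') (f : A ⟶ A') (g : B ⟶ B') :
    K.coef c c' ((K.G a b c k ≫ (ia ⊗ₘ ib)) ≫ (f ⊗ₘ g) ≫ ((pa ⊗ₘ pb) ≫ K.G' a' b' c' k')) =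
      K.coef a a' (ia ≫ f ≫ pa) * K.coef b b' (ib ≫ g ≫ pb) * EE K a b c k a' b' c' k' := by
  have h2 : (ia ⊗ₘ ib) ≫ (f ⊗ₘ g) ≫ (pa ⊗ₘ pb) =
      (K.coef a a' (ia ≫ f ≫ pa) * K.coef b b' (ib ≫ g ≫ pb)) •
        (K.dl a a' ⊗ₘ K.dl b b') := by
    rw [tensorHom_comp_tensorHom, tensorHom_comp_tensorHom]
    conv_lhs => rw [K.eq_coef a a' (ia ≫ f ≫ pa), K.eq_coef b b' (ib ≫ g ≫ pb)]
    rw [MonoidalCategory.tensorHom_def, MonoidalLinear.smul_whiskerRight,
      MonoidalLinear.whiskerLeft_smul,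
      Linear.smul_comp, Linear.comp_smul, smul_smul, ← MonoidalCategory.tensorHom_def]
  have h3 : (K.G a b c k ≫ (ia ⊗ₘ ib)) ≫ (f ⊗ₘ g) ≫ ((pa ⊗ₘ pb) ≫ K.G' a' b' c' k') =
      K.G a b c k ≫ ((ia ⊗ₘ ib) ≫ (f ⊗ₘ g) ≫ (pa ⊗ₘ pb)) ≫ K.G' a' b' c' k' := by
    simp only [Category.assoc]
  rw [h3, h2, Linear.smul_comp, Linear.comp_smul, map_smul, smul_eq_mul]
  rfl

theorem mat_tens {K : Ctx C} (X Y X' Y' : Pre K) (f : X.X ⟶ X'.X) (g : Y.X ⟶ Y'.X)
    (q : Σ p : X.I × Y.I, Σ c, Fin (K.N (X.s p.1) (Y.s p.2) c))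
    (q' : Σ p : X'.I × Y'.I, Σ c, Fin (K.N (X'.s p.1) (Y'.s p.2) c)) :
    mat (X.tens Y) (X'.tens Y') (f ⊗ₘ g) q q' =
      mat X X' f q.1.1 q'.1.1 * mat Y Y' g q.1.2 q'.1.2 *
        EE K (X.s q.1.1) (Y.s q.1.2) q.2.1 q.2.2 (X'.s q'.1.1) (Y'.s q'.1.2) q'.2.1 q'.2.2 :=
  core K _ _ _ _ _ _ q.2.2 q'.2.2 (X.inc q.1.1) (Y.inc q.1.2) (X'.prj q'.1.1) (Y'.prj q'.1.2) f g

end

theorem taskT1 : TaskT1.{v, u} := by
  intro C _ _ _ _ _ _ K X Y X' Y' f g hX hY hX' hY'
  ext q q'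
  rw [Matrix.conjTranspose_apply]
  refine (mat_tens X Y X' Y' f g q q').trans ?_
  refine Eq.trans ?_ (congrArg star (mat_tens X' Y' X Y (dagm X X' f) (dagm Y Y' g) q' q)).symm
  rw [mat_dagm X X' f hX hX', mat_dagm Y Y' g hY hY', Matrix.conjTranspose_apply,
    Matrix.conjTranspose_apply, star_mul', star_mul', star_star, star_star, ← EE_star]

end Pool.Agent.H499R3.UF
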